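import Pool.Agent.H42.Tau2

open Cardinal Pool.Agent.H42.Tau

/-- Under CH neither class is closed under products of two sets of reals. -/
theorem Pool.Agent.Results.MP_f722f0_gt.Full.result (hCH : (𝔠 : Cardinal.{0}) = ℵ₁) :
    (∃ X Y : Set ℝ, SplitTT X ∧ SplitTT Y ∧ ¬SplitTT (X × Y)) ∧
      ∃ X Y : Set ℝ, TG X ∧ TG Y ∧ ¬TG (X × Y) := by
  obtain ⟨X, Y, h1, h2, h3⟩ := main hCH
  exact ⟨⟨X, Y, h1.split, h2.split, h3⟩, X, Y, h1, h2, fun h => h3 h.split⟩
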